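import Pool.Agent.W475.BH.Stm

set_option autoImplicit false

/-! # BH-CB: crude count (Jensen) -/

namespace Pool.Agent.W346.BH

open Complex MeasureTheory Filter Topology Pool.Agent.W475.BH

theorem div_eq {f : ℂ → ℂ} (hf : Differentiable ℂ f) {U : Set ℂ} {u : ℂ} (hu : u ∈ U) :
    MeromorphicOn.divisor f U u = (analyticOrderNatAt f u : ℤ) := by
  have h1 : AnalyticOnNhd ℂ f U := fun z _ => hf.analyticAt z
  rw [MeromorphicOn.AnalyticOnNhd.divisor_apply h1 hu]
  unfold analyticOrderNatAt
  cases h : analyticOrderAt f u with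
  | top => simp
  | coe n => simp

theorem nz_le {f : ℂ → ℂ} (hf : Differentiable ℂ f) {c : ℂ} {R : ℝ} {S : Set ℂ}
    (hS : S ⊆ Metric.closedBall c R) :
    (nz f S : ℤ) ≤ ∑ᶠ u, MeromorphicOn.divisor f (Metric.closedBall c R) u := by
  classical
  set D := MeromorphicOn.divisor f (Metric.closedBall c R) with hD
  have hfin : (Function.support D).Finite := D.finiteSupport (isCompact_closedBall c R)
  have e1 : ∑ᶠ u, D u = ∑ u ∈ hfin.toFinset, D u :=
    finsum_eq_sum_of_support_subset _ (by simp)
  have hsup : Function.support (fun z => ∑ᶠ (_ : z ∈ S), analyticOrderNatAt f z) ⊆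
      ↑hfin.toFinset := by
    intro z hz
    rw [Set.Finite.coe_toFinset]
    by_cases hzS : z ∈ S
    · rw [Function.mem_support] at hz ⊢
      rw [hD, div_eq hf (hS hzS)]
      intro h0
      apply hz
      rw [finsum_eq_if, if_pos hzS]
      exact_mod_cast h0
    · rw [Function.mem_support] at hz
      exact absurd (by rw [finsum_eq_if, if_neg hzS]) hz
  have e2 : nz f S = ∑ z ∈ hfin.toFinset, ∑ᶠ (_ : z ∈ S), analyticOrderNatAt f z := by
    unfold nz
    exact finsum_eq_sum_of_support_subset _ hsup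
  rw [e1, e2, Nat.cast_sum]
  refine Finset.sum_le_sum fun z _ => ?_
  by_cases hzS : z ∈ S
  · rw [finsum_eq_if, if_pos hzS, hD, div_eq hf (hS hzS)]
  · rw [finsum_eq_if, if_neg hzS, hD]
    by_cases hzb : z ∈ Metric.closedBall c R
    · rw [div_eq hf hzb]
      positivity
    · rw [Function.locallyFinsuppWithin.apply_eq_zero_of_notMem _ hzb]
      simp

theorem t_CB : S_CB := by
  intro f c R A S hf hR hb hc hS
  have hc0 : 0 < ‖f c‖ := norm_pos_iff.2 hc
  have hA : 1 ≤ Real.exp A := by
    have h1 := hb c (by rw [sub_self, norm_zero]; positivity)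
    by_contra hlt
    push Not at hlt
    nlinarith
  have h2R : |2 * R| = 2 * R := abs_of_pos (by positivity)
  have hRR : |R| = R := abs_of_pos hR
  set g : ℂ → ℂ := fun z => f z * (f c)⁻¹ with hg
  have hgd : Differentiable ℂ g := hf.mul_const _
  have hgc : g c = 1 := by
    show f c * (f c)⁻¹ = 1
    exact mul_inv_cancel₀ hc
  have key := AnalyticOnNhd.sum_divisor_le (c := c) (r := R) (R := 2 * R) (M := Real.exp A)
    (f := g) (by rw [hRR]; exact hR) (by rw [hRR, h2R]; linarith) hA
    (fun z _ => hgd.analyticAt z) (by rw [hgc]; exact one_ne_zero) (by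
      intro z hz
      rw [mem_sphere_iff_norm, h2R] at hz
      have h1 := hb z hz.le
      show ‖f z * (f c)⁻¹‖ ≤ _
      rw [norm_mul, norm_inv, ← div_eq_mul_inv, div_le_iff₀ hc0]
      exact h1)
  rw [hgc, norm_one, div_one, Real.log_exp, mul_div_cancel_right₀ _ hR.ne', hRR] at key
  have hord : ∀ z, analyticOrderNatAt f z = analyticOrderNatAt g z := by
    intro z
    unfold analyticOrderNatAt
    congr 1
    have h3 : g = f * (fun _ => (f c)⁻¹) := rfl
    rw [h3, analyticOrderAt_mul (hf.analyticAt z) analyticAt_const]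
    have h4 : analyticOrderAt (fun _ : ℂ => (f c)⁻¹) z = 0 := by
      rw [analyticAt_const.analyticOrderAt_eq_zero]
      exact inv_ne_zero hc
    rw [h4, add_zero]
  have hnz : nz f S = nz g S := by
    unfold nz
    simp only [hord]
  rw [hnz]
  have h5 : ((nz g S : ℤ) : ℝ) ≤
      ((∑ᶠ u, MeromorphicOn.divisor g (Metric.closedBall c R) u : ℤ) : ℝ) := by
    exact_mod_cast nz_le hgd hS
  have h6 : ((nz g S : ℤ) : ℝ) = (nz g S : ℝ) := by norm_cast
  rw [← h6]
  exact h5.trans key

end Pool.Agent.W346.BH
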